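import Pool.Agent.Y990.CB.Basic
import Pool.Agent.W45.PC.PT1
import Pool.Agent.W333.PC.Harris

set_option autoImplicit false

open MeasureTheory Set Filter Topology

/-!
Parts ZO and FKG of the project CB of helper990.
-/

namespace Pool.Agent.Y809.CB

open Pool.Agent.W783.PC (pm DepOn Inc)
open Pool.Agent.Y990.CB

noncomputable section

variable {d : ℕ}

/-! ### Arms and infinite clusters -/

lemma perc_Am {M : Mod d} {ω : M.ι → Bool} {z x : Z d} {L : ℕ} (hx : x ∈ Bo z L)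
    (h : ω ∈ Perc M x) : Am M ω z L x := by
  obtain ⟨y, hy, hy'⟩ := Set.Infinite.exists_notMem_finite
    (h : (cl M ω univ x).Infinite) (Bo_finite z L)
  exact exit_Am hx (Or.inl hy') hy

lemma Am_anti {M : Mod d} {ω : M.ι → Bool} {z x : Z d} {L L' : ℕ} (hL : L ≤ L')
    (hx : x ∈ Bo z L) (h : Am M ω z L' x) : Am M ω z L x := by
  obtain ⟨x', hx', h'⟩ := h
  refine exit_Am hx ?_ h'
  by_cases hb : x' ∈ Bo z L
  · right
    obtain ⟨i, hi⟩ := hx'.2
    refine ⟨hb, i, le_antisymm (hb i) ?_⟩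
    rw [hi]; exact_mod_cast hL
  · exact Or.inl hb

lemma perc_of_Am {M : Mod d} {ω : M.ι → Bool} {x : Z d} {k : ℕ}
    (h : ∀ L, k ≤ L → Am M ω 0 L x) : ω ∈ Perc M x := by
  intro hfin
  obtain ⟨B, hB⟩ := (hfin.image (fun y => nm y)).bddAbove
  obtain ⟨x', ⟨_, i, hi⟩, h2⟩ := h (max k (B + 1)) (le_max_left _ _)
  have h3 : x' ∈ cl M ω univ x := reach_mono (subset_univ _) h2
  have h4 : nm x' ≤ B := hB ⟨x', h3, rfl⟩
  have h5 := abs_le_nm x' i
  rw [Pi.zero_apply, sub_zero] at hi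
  have h6 : B + 1 ≤ max k (B + 1) := le_max_right _ _
  have h7 : ((max k (B + 1) : ℕ) : ℤ) ≤ (nm x' : ℤ) := hi ▸ h5
  have h8 : max k (B + 1) ≤ nm x' := by exact_mod_cast h7
  omega

/-- Some vertex of the box is in an infinite cluster. -/
def u (M : Mod d) (k : ℕ) : Set (M.ι → Bool) := {ω | ∃ x ∈ Bo (0 : Z d) k, ω ∈ Perc M x}

/-- Some vertex of the box has an arm. -/
def e (M : Mod d) (k L : ℕ) : Set (M.ι → Bool) := {ω | ∃ x ∈ Bo (0 : Z d) k, Am M ω 0 L x}

/-- There is an infinite cluster. -/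
def U (M : Mod d) : Set (M.ι → Bool) := {ω | ∃ x, ω ∈ Perc M x}

lemma u_meas (M : Mod d) (k : ℕ) : MeasurableSet (u M k) := by
  have : u M k = ⋃ x : Z d, ⋃ (_ : x ∈ Bo (0 : Z d) k), Perc M x := by
    ext ω
    simp only [u, mem_ofPred_eq, mem_iUnion, exists_prop]
  rw [this]
  exact MeasurableSet.iUnion fun x => MeasurableSet.iUnion fun _ => Perc_meas M x

lemma U_meas (M : Mod d) : MeasurableSet (U M) := by
  have : U M = ⋃ x : Z d, Perc M x := by
    ext ω
    simp only [U, mem_ofPred_eq, mem_iUnion]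
  rw [this]
  exact MeasurableSet.iUnion fun x => Perc_meas M x

lemma e_meas (M : Mod d) (k L : ℕ) : MeasurableSet (e M k L) := by
  have : e M k L = ⋃ x : Z d, ⋃ (_ : x ∈ Bo (0 : Z d) k), {ω | Am M ω 0 L x} := by
    ext ω
    simp only [e, mem_ofPred_eq, mem_iUnion, exists_prop]
  rw [this]
  exact MeasurableSet.iUnion fun x => MeasurableSet.iUnion fun _ => Am_meas M 0 L x

lemma u_sub_e (M : Mod d) {k L : ℕ} (h : k ≤ L) : u M k ⊆ e M k L := by
  rintro ω ⟨x, hx, h'⟩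
  exact ⟨x, hx, perc_Am (Bo_mono 0 h hx) h'⟩

lemma u_sub_U (M : Mod d) (k : ℕ) : u M k ⊆ U M := by
  rintro ω ⟨x, _, h'⟩
  exact ⟨x, h'⟩

lemma u_mono (M : Mod d) : Monotone (u M) := by
  rintro k k' h ω ⟨x, hx, h'⟩
  exact ⟨x, Bo_mono 0 h hx, h'⟩

lemma iUnion_u (M : Mod d) : ⋃ k, u M k = U M := by
  ext ω
  simp only [mem_iUnion]
  constructor
  · rintro ⟨k, hk⟩
    exact u_sub_U M k hk
  · rintro ⟨x, hx⟩
    refine ⟨nm x, x, ?_, hx⟩
    have := mem_Bo_nm (0 : Z d) x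
    rwa [zero_add] at this

lemma e_anti (M : Mod d) (k : ℕ) : Antitone (fun L => e M k (k + L)) := by
  rintro L L' h ω ⟨x, hx, h'⟩
  exact ⟨x, hx, Am_anti (by omega) (Bo_mono 0 (by omega) hx) h'⟩

lemma iInter_e (M : Mod d) (k : ℕ) : ⋂ L, e M k (k + L) = u M k := by
  apply Subset.antisymm
  · intro ω hω
    rw [mem_iInter] at hω
    by_contra hc
    have h1 : ∀ x ∈ Bo (0 : Z d) k, ∃ L, k ≤ L ∧ ¬ Am M ω 0 L x := by
      intro x hx
      by_contra hcc
      push Not at hcc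
      exact hc ⟨x, hx, perc_of_Am hcc⟩
    choose! f hf using h1
    obtain ⟨x, hx, hA⟩ := hω ((Bf (0 : Z d) k).sup f)
    have h2 : f x ≤ (Bf (0 : Z d) k).sup f := Finset.le_sup (mem_Bf.2 hx)
    exact (hf x hx).2 (Am_anti (by omega) (Bo_mono 0 (hf x hx).1 hx) hA)
  · intro ω hω
    rw [mem_iInter]
    intro L
    exact u_sub_e M (by omega) hω

lemma u_tends (M : Mod d) (p : unitInterval) :
    Tendsto (fun k => (mu M p).real (u M k)) atTop (𝓝 ((mu M p).real (U M))) := by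
  have h := tendsto_measure_iUnion_atTop (μ := mu M p) (u_mono M)
  rw [iUnion_u] at h
  exact (ENNReal.tendsto_toReal (measure_ne_top _ _)).comp h

lemma e_tends (M : Mod d) (p : unitInterval) (k : ℕ) :
    Tendsto (fun L => (mu M p).real (e M k (k + L))) atTop (𝓝 ((mu M p).real (u M k))) := by
  have h := tendsto_measure_iInter_atTop (μ := mu M p) (s := fun L => e M k (k + L))
    (fun L => (e_meas M k (k + L)).nullMeasurableSet) (e_anti M k) ⟨0, measure_ne_top _ _⟩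
  rw [iInter_e] at h
  exact (ENNReal.tendsto_toReal (measure_ne_top _ _)).comp h

/-! ### Translations -/

lemma perc_sym (M : Mod d) (w x : Z d) (ω : M.ι → Bool) :
    (fun c => ω (M.tr (sf w) c)) ∈ Perc M x ↔ ω ∈ Perc M (x + w) := by
  have h : cl M ω univ (x + w) = sf w '' cl M (fun c => ω (M.tr (sf w) c)) univ x := by
    ext y
    constructor
    · intro hy
      have ey : sf w (y - w) = y := sub_add_cancel y w
      refine ⟨y - w, ?_, ey⟩
      show (G M (fun c => ω (M.tr (sf w) c)) univ).Reachable x (y - w)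
      rw [reach_sym M (sf w) (Nb_sf w) ω, image_univ_of_surjective (sf w).surjective, ey]
      exact hy
    · rintro ⟨y', hy', rfl⟩
      have h1 := (reach_sym M (sf w) (Nb_sf w) ω univ x y').1 hy'
      rw [image_univ_of_surjective (sf w).surjective] at h1
      exact h1
  show (cl M (fun c => ω (M.tr (sf w) c)) univ x).Infinite ↔ (cl M ω univ (x + w)).Infinite
  rw [h, Set.infinite_image_iff (sf w).injective.injOn]

lemma U_inv (M : Mod d) (w : Z d) : {ω | (fun c => ω (M.tr (sf w) c)) ∈ U M} = U M := by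
  ext ω
  constructor
  · rintro ⟨x, hx⟩
    exact ⟨x + w, (perc_sym M w x ω).1 hx⟩
  · rintro ⟨x, hx⟩
    refine ⟨x - w, (perc_sym M w (x - w) ω).2 ?_⟩
    rwa [sub_add_cancel]

/-- The pullback of `e`. -/
def ew (M : Mod d) (w : Z d) (k L : ℕ) : Set (M.ι → Bool) :=
  {ω | (fun c => ω (M.tr (sf w) c)) ∈ e M k L}

lemma ew_eq (M : Mod d) (w : Z d) (k L : ℕ) :
    ew M w k L = ⋃ x : Z d, ⋃ (_ : x ∈ Bo (0 : Z d) k), {ω | Am M ω (0 + w) L (x + w)} := by
  ext ω
  simp only [mem_iUnion, exists_prop]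
  constructor
  · rintro ⟨x, hx, h⟩
    exact ⟨x, hx, (Am_sym M ω 0 w x L).1 h⟩
  · rintro ⟨x, hx, h⟩
    exact ⟨x, hx, (Am_sym M ω 0 w x L).2 h⟩

lemma ew_meas (M : Mod d) (w : Z d) (k L : ℕ) : MeasurableSet (ew M w k L) := by
  rw [ew_eq]
  exact MeasurableSet.iUnion fun x => MeasurableSet.iUnion fun _ => Am_meas M _ L _

lemma ew_dep (M : Mod d) (w : Z d) (k L : ℕ) : DepOn (ew M w k L) (In M (Bo w L)) := by
  rw [ew_eq]
  intro ω ω' h
  simp only [mem_iUnion, exists_prop]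
  rw [zero_add]
  constructor
  · rintro ⟨x, hx, h'⟩
    exact ⟨x, hx, (Am_dep M w L (x + w) ω ω' h).1 h'⟩
  · rintro ⟨x, hx, h'⟩
    exact ⟨x, hx, (Am_dep M w L (x + w) ω ω' h).2 h'⟩

lemma e_dep (M : Mod d) (k L : ℕ) : DepOn (e M k L) (In M (Bo 0 L)) := by
  intro ω ω' h
  constructor
  · rintro ⟨x, hx, h'⟩
    exact ⟨x, hx, (Am_dep M 0 L x ω ω' h).1 h'⟩
  · rintro ⟨x, hx, h'⟩
    exact ⟨x, hx, (Am_dep M 0 L x ω ω' h).2 h'⟩

lemma box_disj (hd : 1 ≤ d) (L : ℕ) :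
    Disjoint (Bo (0 : Z d) L) (Bo (fun _ => 2 * (L : ℤ) + 1) L) := by
  rw [Set.disjoint_left]
  intro x h1 h2
  have h3 := abs_le.1 (h1 ⟨0, hd⟩)
  have h4 := abs_le.1 (h2 ⟨0, hd⟩)
  simp only [Pi.zero_apply, sub_zero] at h3 h4
  linarith [h3.2, h4.1]

lemma e_indep (hd : 1 ≤ d) (M : Mod d) (p : unitInterval) (k L : ℕ) :
    ∃ w : Z d, (mu M p).real (e M k L ∩ ew M w k L) = (mu M p).real (e M k L) ^ 2 := by
  refine ⟨fun _ => 2 * (L : ℤ) + 1, ?_⟩
  have h := Pool.Agent.W45.PC.s_indep M.ι (fun _ => p) _ _ _ _ (e_dep M k L)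
    (ew_dep M (fun _ => 2 * (L : ℤ) + 1) k L) (In_disj M (box_disj hd L)) (e_meas M k L)
    (ew_meas M _ k L)
  have h2 : (mu M p).real (ew M (fun _ => 2 * (L : ℤ) + 1) k L) = (mu M p).real (e M k L) :=
    mu_inv_real M p (sf (fun _ => 2 * (L : ℤ) + 1)) (e_meas M k L)
  have h3 : (mu M p).real (e M k L ∩ ew M (fun _ => 2 * (L : ℤ) + 1) k L) =
      (mu M p).real (e M k L) * (mu M p).real (ew M (fun _ => 2 * (L : ℤ) + 1) k L) := by
    unfold mu
    simp only [Measure.real]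
    rw [h, ENNReal.toReal_mul]
  rw [h3, h2, sq]

lemma q_le (hd : 1 ≤ d) (M : Mod d) (p : unitInterval) {δ : ℝ} (hδ : 0 < δ) :
    (mu M p).real (U M) ≤ ((mu M p).real (U M) + δ) ^ 2 + 2 * δ := by
  set q := (mu M p).real (U M) with hq
  obtain ⟨k, hk⟩ := ((u_tends M p).eventually (lt_mem_nhds (show q - δ < q by linarith))).exists
  obtain ⟨L, hL⟩ := ((e_tends M p k).eventually
    (gt_mem_nhds (show (mu M p).real (u M k) < (mu M p).real (u M k) + δ by linarith))).exists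
  have h1 : (mu M p).real (u M k) ≤ q := measureReal_mono (u_sub_U M k)
  obtain ⟨w, hw⟩ := e_indep hd M p k (k + L)
  have h2 : (mu M p).real (U M \ u M k) = q - (mu M p).real (u M k) :=
    measureReal_sdiff (u_sub_U M k) (u_meas M k)
  have h3 : (mu M p).real (U M \ e M k (k + L)) ≤ δ := by
    have : (mu M p).real (U M \ e M k (k + L)) ≤ (mu M p).real (U M \ u M k) :=
      measureReal_mono (sdiff_subset_sdiff_right (u_sub_e M (by omega)))
    linarith
  have h4 : (mu M p).real (U M \ ew M w k (k + L)) ≤ δ := by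
    have h5 := mu_inv_real M p (sf w) ((U_meas M).diff (e_meas M k (k + L)))
    have h6 : {ω : M.ι → Bool | (fun c => ω (M.tr (sf w) c)) ∈ U M \ e M k (k + L)} =
        U M \ ew M w k (k + L) := by
      conv_rhs => rw [← U_inv M w]
      rfl
    rw [h6] at h5
    rw [h5]
    exact h3
  have h7 : U M ⊆ (e M k (k + L) ∩ ew M w k (k + L)) ∪
      ((U M \ e M k (k + L)) ∪ (U M \ ew M w k (k + L))) := by
    intro ω hω
    by_cases ha : ω ∈ e M k (k + L)
    · by_cases hb : ω ∈ ew M w k (k + L)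
      · exact Or.inl ⟨ha, hb⟩
      · exact Or.inr (Or.inr ⟨hω, hb⟩)
    · exact Or.inr (Or.inl ⟨hω, ha⟩)
  have h8 : q ≤ (mu M p).real (e M k (k + L) ∩ ew M w k (k + L)) +
      ((mu M p).real (U M \ e M k (k + L)) + (mu M p).real (U M \ ew M w k (k + L))) := by
    refine (measureReal_mono h7).trans ((measureReal_union_le _ _).trans ?_)
    gcongr
    exact measureReal_union_le _ _
  rw [hw] at h8
  have h9 : (mu M p).real (e M k (k + L)) ≤ q + δ := by linarith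
  have h10 : (mu M p).real (e M k (k + L)) ^ 2 ≤ (q + δ) ^ 2 := by
    gcongr
  linarith

theorem zo : Pool.Agent.Y990.CB.S_zo := by
  intro d M p hd hθ ε hε
  set q := (mu M p).real (U M) with hq
  have hq0 : 0 < q := lt_of_lt_of_le hθ (measureReal_mono (fun ω hω => ⟨0, hω⟩))
  have hq1 : q ≤ 1 := measureReal_le_one
  have hq2 : q ≤ q ^ 2 := by
    have h : Tendsto (fun δ : ℝ => (q + δ) ^ 2 + 2 * δ) (𝓝[>] 0) (𝓝 ((q + 0) ^ 2 + 2 * 0)) := by
      apply tendsto_nhdsWithin_of_tendsto_nhds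
      apply Continuous.tendsto
      fun_prop
    have h2 := ge_of_tendsto h (b := q) (by
      filter_upwards [self_mem_nhdsWithin] with δ hδ
      exact q_le hd M p hδ)
    simpa using h2
  have hq3 : q = 1 := by nlinarith
  obtain ⟨k, hk⟩ := ((u_tends M p).eventually
    (lt_mem_nhds (show 1 - ε < (mu M p).real (U M) by rw [← hq, hq3]; linarith))).exists
  exact ⟨k, hk.le⟩

/-! ### FKG -/

lemma In_finset (M : Mod d) (L : ℕ) : ∃ F : Finset M.ι, (F : Set M.ι) = In M (Bo 0 L) :=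
  ⟨(In_fin M (Bo_finite 0 L)).toFinset, Set.Finite.coe_toFinset _⟩

lemma arm_le (M : Mod d) (p : unitInterval) (L : ℕ) (x : Z d) (hx : x ∈ Bo (0 : Z d) L) :
    th M p ≤ (mu M p).real {ω | Am M ω 0 L x} := by
  have h1 := mu_inv_real M p (sf x) (Perc_meas M (0 : Z d))
  have h2 : {ω : M.ι → Bool | (fun c => ω (M.tr (sf x) c)) ∈ Perc M (0 : Z d)} ⊆
      {ω | Am M ω 0 L x} := by
    intro ω hω
    have h3 := (perc_sym M x 0 ω).1 hω
    rw [zero_add] at h3
    exact perc_Am hx h3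
  unfold th
  rw [← h1]
  exact measureReal_mono h2

lemma fkg_aux (M : Mod d) (p : unitInterval) (v : Z d) (L : ℕ) (hL : nm v ≤ L) :
    th M p ^ 2 ≤ (mu M p).real (Ta M 0 (nm v) L) + (mu M p).real (Cn M univ 0 v) := by
  obtain ⟨F, hF⟩ := In_finset M L
  have hv0 : v ∈ Bo (0 : Z d) (nm v) := by
    have := mem_Bo_nm (0 : Z d) v
    rwa [zero_add] at this
  have hv : v ∈ Bo (0 : Z d) L := Bo_mono 0 hL hv0
  have h0 : (0 : Z d) ∈ Bo (0 : Z d) L := self_mem_Bo 0 L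
  have h := Pool.Agent.W333.PC.s_harris M.ι (fun _ => p) F {ω | Am M ω 0 L 0} {ω | Am M ω 0 L v}
    (by rw [hF]; exact Am_dep M 0 L 0) (by rw [hF]; exact Am_dep M 0 L v)
    (Am_inc M 0 L 0) (Am_inc M 0 L v)
  have h1 : {ω : M.ι → Bool | Am M ω 0 L 0} ∩ {ω | Am M ω 0 L v} ⊆
      Ta M 0 (nm v) L ∪ Cn M univ 0 v := by
    rintro ω ⟨ha, hb⟩
    by_cases hc : (G M ω (Bo 0 L)).Reachable 0 v
    · exact Or.inr (reach_mono (subset_univ _) hc)
    · exact Or.inl ⟨0, self_mem_Bo 0 _, v, hv0, ha, hb, hc⟩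
  have h2 : (mu M p).real ({ω : M.ι → Bool | Am M ω 0 L 0} ∩ {ω | Am M ω 0 L v}) ≤
      (mu M p).real (Ta M 0 (nm v) L) + (mu M p).real (Cn M univ 0 v) :=
    (measureReal_mono h1).trans (measureReal_union_le _ _)
  have h3 := arm_le M p L 0 h0
  have h4 := arm_le M p L v hv
  have h5 : 0 ≤ th M p := measureReal_nonneg
  have h6 : th M p ^ 2 ≤ (mu M p).real {ω | Am M ω 0 L 0} * (mu M p).real {ω | Am M ω 0 L v} := by
    rw [sq]
    exact mul_le_mul h3 h4 h5 measureReal_nonneg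
  exact h6.trans (h.trans h2)

theorem fkg (h : S_two) : Pool.Agent.Y990.CB.S_fkg := by
  intro d M p v hp
  obtain ⟨C, hC, hT⟩ := h d M p hp
  have h1 : Tendsto (fun L : ℕ => C ^ (nm v + 1) / √(L : ℝ) + (mu M p).real (Cn M univ 0 v)) atTop
      (𝓝 (0 + (mu M p).real (Cn M univ 0 v))) := by
    refine Tendsto.add ?_ tendsto_const_nhds
    refine Tendsto.div_atTop tendsto_const_nhds ?_
    exact (Real.tendsto_sqrt_atTop).comp tendsto_natCast_atTop_atTop
  rw [zero_add] at h1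
  refine ge_of_tendsto h1 ?_
  filter_upwards [eventually_ge_atTop (max 1 (nm v))] with L hL
  have h2 := fkg_aux M p v L ((le_max_right _ _).trans hL)
  have h3 := hT 0 (nm v) L ((le_max_left _ _).trans hL)
  linarith

end

end Pool.Agent.Y809.CB
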